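import Mathlib
import Pool.Agent.Run7.h103.SP.Lam

/-!
# All sign patterns of the Liouville function on subsets of arbitrary families of linear forms

The vanishing of the correlations of order two (Tao; Tao and Teravainen) at almost all scales is from the
starting files (`Pool.Agent.Y842.PH`, `Pool.Agent.Y842.EL`) in the form of `Pool.Agent.Run7.h17.Fixed` (helper17).
From Mathlib: `ArithmeticFunction.cardFactors n` is the number of the prime factors of `n` with multiplicity;
`Finset.Icc 1 N` is the set of the integers from `1` to `N`; `Filter.atTop` and `∀ᶠ j in atTop` mean: for all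
large `j`.
-/

set_option autoImplicit false

namespace Pool.Agent.Results.MP_4fffd4_nt.AllPatternsOnSubsets

open Finset Filter Topology

/-- The Liouville function. -/
def lam (n : ℕ) : ℤ := (-1) ^ ArithmeticFunction.cardFactors n

open Classical in
/-- The set `E` has logarithmic density zero. -/
def LogDensityZero (E : Set ℕ) : Prop :=
  Tendsto (fun X : ℕ => (∑ n ∈ Icc 1 X, if n ∈ E then (1 : ℝ) / n else 0) / Real.log X) atTop (𝓝 0)

/-- A pair `p = (a, b)` stands for the linear form `a n + b`. The forms `p` and `q` are not proportional. -/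
def NonProportional (p q : ℕ × ℕ) : Prop := p.1 * q.2 ≠ q.1 * p.2

open Classical in
/-- The sum of the weights `g n` over the `n ≤ N` at which the Liouville function takes the sign pattern `σ` on the
forms `f 0, ..., f (m - 1)`. For `g = 1` it is the number of the occurrences of the pattern. -/
noncomputable def occ {m : ℕ} (g : ℕ → ℝ) (f : Fin m → ℕ × ℕ) (σ : Fin m → ℤ) (N : ℕ) : ℝ :=
  ∑ n ∈ (Icc 1 N).filter (fun n => ∀ i, lam ((f i).1 * n + (f i).2) = σ i), g n

/-- Each of the `2 ^ m` sign patterns on the `m` forms `f` occurs up to `N`, relative to the weight `g`, with the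
frequency `2 ^ (- m)` up to the factor `1 ± ε`: the sum of `g n` over its occurrences is `2 ^ (- m)` times the sum of `g`
up to an error of at most `ε N / 2 ^ m`. -/
def AllPatterns {m : ℕ} (g : ℕ → ℝ) (f : Fin m → ℕ × ℕ) (ε : ℝ) (N : ℕ) : Prop :=
  ∀ σ : Fin m → ℤ, (∀ j, σ j = 1 ∨ σ j = -1) →
    |occ g f σ N - (∑ n ∈ Icc 1 N, g n) / 2 ^ m| ≤ ε * (N / 2 ^ m)

theorem allPatterns_iff {m : ℕ} (g : ℕ → ℝ) (f : Fin m → ℕ × ℕ) (ε : ℝ) (N : ℕ) :
    AllPatterns g f ε N ↔ Pool.Agent.Run7.h103.SP.Eq g f ε N := by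
  have h : ∀ σ : Fin m → ℤ, occ g f σ N = Pool.Agent.Run7.h103.SP.W g f σ N := by
    intro σ
    unfold occ Pool.Agent.Run7.h103.SP.W
    refine sum_congr ?_ fun _ _ => rfl
    ext n
    simp only [mem_filter]
    exact Iff.rfl
  unfold AllPatterns Pool.Agent.Run7.h103.SP.Eq
  simp only [h]

open Classical in
/-- There is one set `E` of logarithmic density zero with the following properties.

**(1)** Let `f 0, ..., f (K - 1)` be any pairwise non-proportional forms `a n + b`, `a ≥ 1` (for example `n + h` for any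
`K` different shifts `h`). For every `m` and `ε > 0` and all large `N` outside `E`, and all weights `g` with `|g| ≤ 1`
(which may depend on `N`), all the `m`-tuples of the forms, with the exception of at most
`2 * 8 ^ m * ε ^ (-2) * K ^ (m - 1)` of the `K ^ m` tuples, satisfy: all the `2 ^ m` sign patterns of the Liouville function
occur with the expected frequency up to the factor `1 ± ε`, also relative to the weight `g`.

**(2)** Let `A` be any infinite set of pairwise non-proportional forms (for example `n + h` for the members `h` of any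
infinite set of shifts), and let `g 0, g 1, ...` be any weights with `|g i| ≤ 1`. There are different members
`e 0, e 1, ...` of `A` and scales `u j` tending to infinity, outside of `E`, such that for all `k ≥ i`, for every finite
set of the forms `e k, e (k + 1), ...`, and for all large `j`: all the sign patterns on this set of forms occur up to
`u j` with the expected frequency up to the factor `1 ± 2 ^ (-k)`, also relative to the weight `g i`.

**(3)** Every infinite set `H` of shifts has an infinite subset `B` such that for every finite set `F` of members of `B`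
every sign pattern on `F` occurs: there are infinitely many `n` with `lam (n + h) = σ h` for all `h ∈ F`. -/
theorem result : ∃ E : Set ℕ, LogDensityZero E ∧
    (∀ (K m : ℕ) (f : Fin K → ℕ × ℕ), (∀ i, 1 ≤ (f i).1) → (∀ i j, i ≠ j → NonProportional (f i) (f j)) →
      ∀ ε : ℝ, 0 < ε → ∃ N₀ : ℕ, ∀ N : ℕ, N₀ ≤ N → N ∉ E → ∀ g : ℕ → ℝ, (∀ n, |g n| ≤ 1) →
        (K : ℝ) * ((univ.filter fun t : Fin m → Fin K => ¬ AllPatterns g (fun j => f (t j)) ε N).card : ℝ) ≤
          2 * 8 ^ m / ε ^ 2 * (K : ℝ) ^ m) ∧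
    (∀ A : Set (ℕ × ℕ), A.Infinite → (∀ p ∈ A, 1 ≤ p.1) → (∀ p ∈ A, ∀ q ∈ A, p ≠ q → NonProportional p q) →
      ∀ g : ℕ → ℕ → ℝ, (∀ i n, |g i n| ≤ 1) →
      ∃ e : ℕ → ℕ × ℕ, (∀ m, e m ∈ A) ∧ Function.Injective e ∧
        ∃ u : ℕ → ℕ, Tendsto u atTop atTop ∧ (∀ j, u j ∉ E) ∧
        ∀ k i : ℕ, i ≤ k → ∀ (m : ℕ) (t : Fin m → ℕ), Function.Injective t → (∀ s, k ≤ t s) →
          ∀ᶠ j in atTop, AllPatterns (g i) (fun s => e (t s)) ((1 / 2) ^ k) (u j)) ∧
    (∀ H : Set ℕ, H.Infinite → ∃ B ⊆ H, B.Infinite ∧ ∀ F : Finset ℕ, (F : Set ℕ) ⊆ B →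
      ∀ σ : ℕ → ℤ, (∀ h, σ h = 1 ∨ σ h = -1) → {n : ℕ | ∀ h ∈ F, lam (n + h) = σ h}.Infinite) := by
  obtain ⟨E, hE, hC⟩ := Pool.Agent.Run7.h103.SP.corr
  refine ⟨E, hE, fun K m f hf hnp ε hε => ?_, fun A hA hA1 hnp g hg => ?_,
    fun H hH => Pool.Agent.Run7.h103.SP.shifts hE hC H hH⟩
  · obtain ⟨N₀, h⟩ := Pool.Agent.Run7.h103.SP.tuples hC K m f hf hnp ε hε
    refine ⟨N₀, fun N hN hNE g hg => ?_⟩
    have h1 := h N hN hNE g hg
    simp only [allPatterns_iff]
    exact h1
  · obtain ⟨e, h1, h2, u, h3, h4, h5⟩ := Pool.Agent.Run7.h103.SP.infinite hE hC A hA hA1 hnp g hg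
    refine ⟨e, h1, h2, u, h3, h4, fun k i hi m t ht hkt => ?_⟩
    filter_upwards [h5 k i hi m t ht hkt] with j hj
    exact (allPatterns_iff _ _ _ _).2 hj

end Pool.Agent.Results.MP_4fffd4_nt.AllPatternsOnSubsets
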