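import Pool.Agent.Run7.h504.RM15

/-!
# Sign patterns of aperiodic functions on sparse windows at displaced places

Used from the starting files: the correlations of aperiodic functions with values `1` and `-1` at linear forms with short
and long parameters (`MP_4a7640_nt.AperiodicClusters`, part (1)), the inequality of van der Corput (`H469R2.NK.Vdc`), the
bilinear estimate for families of shifts (`TH823.EL.FamU`, `TH823.PS`), the additive energy of polynomial values
(`H373R2.T7.energy_poly`) and the divergence of the sum of the reciprocals of the primes in a residue class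
(`Helper793.Cube.Main`).
-/

set_option autoImplicit false

namespace Pool.Agent.Results.MP_4fffd4_nt.DisplacedWindows

open Finset

/-- Multiplicative functions with values `1` and `-1` (the value at `0` is arbitrary). -/
def IsMultSign (f : ℕ → ℝ) : Prop :=
  (∀ n, f n = 1 ∨ f n = -1) ∧ ∀ m n : ℕ, m.Coprime n → f (m * n) = f m * f n

/-- `f` is aperiodic: `𝔻(f, χ) = ∞` for every Dirichlet character `χ`. -/
def Aperiodic (f : ℕ → ℝ) : Prop :=
  ∀ (q : ℕ) (χ : DirichletCharacter ℂ q), 1 ≤ q →
    ¬ Summable fun p : Nat.Primes =>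
      (1 - (((f p : ℝ) : ℂ) * (starRingEnd ℂ) (χ ((p : ℕ) : ZMod q))).re) / ((p : ℕ) : ℝ)

/-- The function of Liouville. -/
noncomputable def lam (n : ℕ) : ℝ := (-1 : ℝ) ^ (ArithmeticFunction.cardFactors n)

/-- The cluster of the form `i₀` in the set `E` of forms `a i n + ∑ t, L i t d t`: the forms of `E` whose vector of
coefficients at `n` and at the long parameters `d t`, `t ∈ lg`, is proportional to the one of the form `i₀`. -/
def cluster {k r : ℕ} (a : Fin k → ℤ) (L : Fin k → Fin r → ℤ) (lg : Finset (Fin r))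
    (E : Finset (Fin k)) (i₀ : Fin k) : Finset (Fin k) :=
  E.filter fun i => ∀ t ∈ lg, a i * L i₀ t = a i₀ * L i t

/-- One of the clusters of `E` has an odd number of forms, or it contains a form which is not a combination of the other
ones: there is a direction `(w, v)` in which it varies and the other ones do not. -/
def Good {k r : ℕ} (a : Fin k → ℤ) (L : Fin k → Fin r → ℤ) (lg : Finset (Fin r))
    (E : Finset (Fin k)) : Prop :=
  ∃ i₀ ∈ E, Odd (cluster a L lg E i₀).card ∨
    ∃ i₁ ∈ cluster a L lg E i₀, ∃ (w : ℤ) (v : Fin r → ℤ),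
      a i₁ * w + ∑ t, L i₁ t * v t ≠ 0 ∧
      ∀ i ∈ cluster a L lg E i₀, i ≠ i₁ → a i * w + ∑ t, L i t * v t = 0

/-- The window `z + ∑ j, L t j d j`, `t < κ`, is independent: all its nonempty subsets are good. -/
def IndependentWindow {κ r : ℕ} (lg : Finset (Fin r)) (L : Fin κ → Fin r → ℕ) : Prop :=
  ∀ E : Finset (Fin κ), E.Nonempty → Good (fun _ => 1) (fun t j => (L t j : ℤ)) lg E

/-- The additive energy of order `p` of the family `a 1, ..., a x`: the number of the solutions of
`a (u 1) + ... + a (u p) = a (v 1) + ... + a (v p)`. -/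
def energy (p x : ℕ) (a : ℕ → ℤ) : ℕ :=
  (((Fintype.piFinset fun _ : Fin p => Icc 1 x) ×ˢ (Fintype.piFinset fun _ : Fin p => Icc 1 x)).filter
    (fun q => ∑ i, a (q.1 i) = ∑ i, a (q.2 i))).card

/-- The integers `a 1, ..., a x` are at most `B N` in absolute value, and their additive energy of some order `p ≤ h`
is at most `C x ^ (2 p) / N`. -/
def Spread (h B : ℕ) (C : ℝ) (N x : ℕ) (a : ℕ → ℤ) : Prop :=
  (∀ m ∈ Icc 1 x, |a m| ≤ B * N) ∧ ∃ p : ℕ, 1 ≤ p ∧ p ≤ h ∧ (energy p x a : ℝ) * N ≤ C * (x : ℝ) ^ (2 * p)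

open Classical in
/-- The number of the vectors `m` with `1 ≤ m i ≤ x i` for all `i` which have the property `E`. -/
noncomputable def num {k : ℕ} (x : Fin k → ℕ) (E : (Fin k → ℕ) → Prop) : ℝ :=
  (((Fintype.piFinset fun i => Icc 1 (x i)).filter E).card : ℝ)

open Classical in
/-- The number of the vectors `d` of integers with `1 ≤ d j ≤ D j` for all `j` which have the property `E`. -/
noncomputable def numBox {r : ℕ} (D : Fin r → ℕ) (E : (Fin r → ℤ) → Prop) : ℝ :=
  (((Fintype.piFinset fun j => Icc (1 : ℤ) (D j)).filter E).card : ℝ)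

open Classical in
/-- The number of the integers `n` with `Y < n ≤ X` which have the property `E`. -/
noncomputable def freq (Y X : ℕ) (E : ℕ → Prop) : ℝ := (((Ioc Y X).filter E).card : ℝ)

/-- The value of `f` at `z + ∑ j, L t j d j`, for a positive integer `z` and nonnegative integers `d j`. -/
noncomputable def value {κ r : ℕ} (f : ℕ → ℝ) (L : Fin κ → Fin r → ℕ) (d : Fin r → ℤ) (t : Fin κ) (z : ℤ) : ℝ :=
  f (z.toNat + ∑ j, L t j * (d j).toNat)

/-- With the constants `c i` and the parameters `d`, every pattern `σ` of signs of the values of the functions `f i` on the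
windows at the places `α i n + c i` occurs as often as if the values of the functions `f i`, `i ∈ Ap`, were independent and
random, and independent of the values of the other functions, among the elements of every set `A l d`, up to an error of
at most `ε N`, in all intervals `(Y, X]` in which all the places are positive. -/
def Independent (B : ℕ) (ε : ℝ) (N : ℕ) {κ r k W : ℕ} (L : Fin k → Fin κ → Fin r → ℕ) (f : Fin k → ℕ → ℝ)
    (Ap : Finset (Fin k)) (α : Fin k → ℕ) (A : Fin W → (Fin r → ℤ) → Set ℕ) (c : Fin k → ℤ) (d : Fin r → ℤ) : Prop :=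
  ∀ l, ∀ σ : Fin k → Fin κ → ℝ, (∀ i t, σ i t = 1 ∨ σ i t = -1) →
    ∀ Y X : ℕ, Y ≤ X → (∀ i, α i * X ≤ B * N) → (∀ i, 0 ≤ α i * (Y : ℤ) + c i) →
    |freq Y X (fun n => n ∈ A l d ∧ ∀ i t, value (f i) (L i) d t (α i * (n : ℤ) + c i) = σ i t) -
      freq Y X (fun n => n ∈ A l d ∧ ∀ i, i ∉ Ap → ∀ t, value (f i) (L i) d t (α i * (n : ℤ) + c i) = σ i t) /
        2 ^ (κ * Ap.card)| ≤ ε * N

/-- Let `h`, `B`, `C`, `k`, `W`, `κ`, `r`, `R` and `ε > 0` be fixed and let `Ap` be a set of indices `i < k`.
(1) Let `f 1, ..., f k` be functions with values `1` and `-1`: multiplicative and aperiodic ones for `i ∈ Ap`, for example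
the function of Liouville, and ARBITRARY ones for the other `i`. Let the windows `z + ∑ j, L i t j d j`, `t < κ`, be
independent for `i ∈ Ap`. Let `N` be large and let the parameters `d` run through a box `1 ≤ d j ≤ D j` with large
`D j ≤ R N`, which may tend to infinity arbitrarily slowly, and `N ≤ R (D j)` for the long parameters `j ∈ lg`. Let
`s i 1, ..., s i (x i)` be families of integers: arbitrary ones for `i ∉ Ap`; for `i ∈ Ap` the members are at most `B N` in
absolute value and the additive energy of some order `p ≤ h` is at most `C x ^ (2 p) / N`, where `x` is the length. Let all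
`α i ≥ 1` and let `A l d` be arbitrary sets of natural numbers. For all the vectors `m` with `1 ≤ m i ≤ x i` up to a
proportion of `ε` of them, for all the parameters `d` in the box up to a proportion of `ε` of them: the number of the
`n ∈ A l d` for which the `k κ` signs of the functions `f i` on the windows at the places `α i n + s i (m i)` form the pattern
`σ` is `2 ^ (- κ |Ap|)` times the number of the `n ∈ A l d` with this property for `i ∉ Ap`, up to an error of at most `ε N`,
for all `l`, all patterns `σ` and all intervals in which the places are positive.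
(2) Independent windows: `z, z + d 0, ..., z + d (r - 1)` with short parameters; arithmetic progressions `z + t d`, `t < κ`,
with a long difference `d`.
(3) The function of Liouville is multiplicative and aperiodic. The condition on the families holds, for some `h`, `B` and
`C`, for the values at `1, ..., x` of every nonconstant polynomial with integer coefficients and a positive leading
coefficient, whenever `x` to the power of the degree has the order of magnitude of `N`. -/
theorem result (h B k W κ : ℕ) (C ε : ℝ) (hε : 0 < ε) (Ap : Finset (Fin k)) :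
    (∀ (r R : ℕ) (lg : Finset (Fin r)) (L : Fin k → Fin κ → Fin r → ℕ) (f : Fin k → ℕ → ℝ),
      (∀ i n, f i n = 1 ∨ f i n = -1) →
      (∀ i ∈ Ap, IsMultSign (f i) ∧ Aperiodic (f i) ∧ IndependentWindow lg (L i)) →
      ∃ N₀ : ℕ, ∀ (N : ℕ) (D : Fin r → ℕ), N₀ ≤ N → (∀ j, N₀ ≤ D j) → (∀ j, D j ≤ R * N) → (∀ j ∈ lg, N ≤ R * D j) →
        ∀ (x : Fin k → ℕ) (s : Fin k → ℕ → ℤ), (∀ i ∈ Ap, Spread h B C N (x i) (s i)) →
        ∀ α : Fin k → ℕ, (∀ i, 1 ≤ α i) → ∀ A : Fin W → (Fin r → ℤ) → Set ℕ,
        num x (fun m => ε * ∏ j, (D j : ℝ) < numBox D (fun d => ¬ Independent B ε N L f Ap α A (fun i => s i (m i)) d)) ≤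
          ε * ∏ i, (x i : ℝ)) ∧
    (∀ r : ℕ, IndependentWindow (κ := r + 1) (∅ : Finset (Fin r)) (fun t j => if t = j.succ then 1 else 0)) ∧
    IndependentWindow (κ := κ) (univ : Finset (Fin 1)) (fun t _ => (t : ℕ)) ∧
    (IsMultSign lam ∧ Aperiodic lam) ∧
    (∀ g : Polynomial ℤ, 1 ≤ g.natDegree → 0 < g.leadingCoeff → ∀ D : ℕ, ∃ (h' B' : ℕ) (C' : ℝ), ∀ N x : ℕ,
      N ≤ D * x ^ g.natDegree → x ^ g.natDegree ≤ D * N → Spread h' B' C' N x (fun m => g.eval (m : ℤ))) := by
  classical
  refine ⟨?_, fun r E hE => ?_, fun E hE => ?_, ?_, fun g hd hl D => ?_⟩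
  · intro r R lg L f hf hA
    obtain ⟨N₀, h0⟩ := Pool.Agent.Run7.h504.RM.tupP r lg (h + 1) B W k R (by omega) C ε hε L f hf Ap
      (fun i hi => ⟨(hA i hi).1, (hA i hi).2.1, (hA i hi).2.2⟩)
    refine ⟨N₀, fun N D hN hD1 hD2 hD3 x s hs α hα A => ?_⟩
    exact h0 N D hN ⟨hD1, hD2, hD3⟩ x s (fun i hi => by
      obtain ⟨h1, p, _, hp2, he⟩ := hs i hi
      exact ⟨h1, Pool.Agent.Run7.h504.RM.energy_order (by omega) he⟩) α hα A
  · exact Pool.Agent.Run7.h504.RM.good_tuple r E hE
  · exact Pool.Agent.Run7.h504.RM.good_progression κ E hE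
  · exact Pool.Agent.Run7.h504.RM.lam_sign
  · obtain ⟨h', hh, B', C', _, h1⟩ := Pool.Agent.Run7.h504.RM.poly_energy g hd hl D
    exact ⟨h', B', C', fun N x hx1 hx2 => ⟨(h1 N x hx1 hx2).1, h', hh, le_rfl, (h1 N x hx1 hx2).2⟩⟩

end Pool.Agent.Results.MP_4fffd4_nt.DisplacedWindows
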