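import Mathlib
import Pool.Agent.Run7.h458.MK.Pat

set_option autoImplicit false

/-!
Sign patterns of the Liouville function at almost all short sparse tuples of positions, jointly with any given
statistic of `n`. Let `y_i` be ANY flat family of residues modulo `q`, `N^(1/3) log^C N <= q <= Bq N`, let `2^r <= log^A N` and let
`G_1, .., G_m` be arbitrary functions bounded by `1`, `m <= log^A N` (for instance the indicators of all the words
`lambda(n+1), .., lambda(n+h)`, `2^h <= log^A N`). For all but `|s|^r / log^A N` of the `r`-tuples of members, for all dilations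
`k <= log^T N` and all translations `c <= log^T N`, for all `2^r` sign patterns and in all intervals `(u, v]` of length at least
`N / log^T N` in `[0, N]`, the pattern of `lambda` at `n + c + k y_(i_1), .., n + c + k y_(i_r)` is equidistributed and independent of every
`G_a(n)`, with an error of a power of a logarithm.
-/

namespace Pool.Agent.Results.MP_4fffd4_nt.SignsAtShortSparseTuples

open Finset
open Pool.Agent.N384.MQ (Flat)

theorem result (A T Bq : ℕ) : ∃ V C N₀ : ℕ, ∀ N : ℕ, N₀ ≤ N → ∀ (q : ℕ) [NeZero q],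
    (N : ℝ) ^ (1 / 3 : ℝ) * Real.log N ^ C ≤ q → q ≤ Bq * N →
    ∀ {ι : Type} [DecidableEq ι] (s : Finset ι) (y : ι → ZMod q), s.Nonempty → Flat q (1 / Real.log N ^ V) s y →
    ∀ (r m : ℕ), (2 : ℝ) ^ r ≤ Real.log N ^ A → (m : ℝ) ≤ Real.log N ^ A →
    ∀ G : Fin m → ℕ → ℝ, (∀ a n, |G a n| ≤ 1) →
    ∃ Bad ⊆ Fintype.piFinset (fun _ : Fin r => s), (Bad.card : ℝ) ≤ (s.card : ℝ) ^ r / Real.log N ^ A ∧
      ∀ i ∈ Fintype.piFinset (fun _ : Fin r => s), i ∉ Bad → ∀ k c : ℕ, 1 ≤ k → (k : ℝ) ≤ Real.log N ^ T →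
      (c : ℝ) ≤ Real.log N ^ T → ∀ u v : ℕ, v ≤ N → (u : ℝ) + N / Real.log N ^ T ≤ v →
      ∀ ε : Fin r → ℤ, (∀ l, ε l = 1 ∨ ε l = -1) → ∀ a : Fin m,
      |∑ n ∈ (Ioc u v).filter (fun n => ∀ l, (-1 : ℤ) ^ ArithmeticFunction.cardFactors (n + c + k * (y (i l)).val) = ε l),
          G a n - (1 / 2) ^ r * ∑ n ∈ Ioc u v, G a n| ≤ ((v : ℝ) - u) / Real.log N ^ A :=
  Pool.Agent.Run7.h458.MK.patterns_int A T Bq

end Pool.Agent.Results.MP_4fffd4_nt.SignsAtShortSparseTuples
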