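import Mathlib
import Pool.Agent.Run7.h103.SP.Lam

/-!
# The Liouville function has at least `2 K` sign patterns on any `K` linear forms

The vanishing of the correlations of order two and of odd order (Tao; Tao and Teravainen) at almost all scales is from
the starting files (`Pool.Agent.Y842.PH`, `Pool.Agent.Y842.EL`, `Pool.Agent.N781.E`) in the form of
`Pool.Agent.Run7.h17.Fixed` (helper17). From Mathlib: `ArithmeticFunction.cardFactors n` is the number of the prime
factors of `n` with multiplicity; `Finset.Icc 1 N` is the set of the integers from `1` to `N`.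
-/

set_option autoImplicit false

namespace Pool.Agent.Results.MP_4fffd4_nt.TwicePatternsOfForms

open Finset Filter Topology

/-- The Liouville function. -/
def lam (n : ℕ) : ℤ := (-1) ^ ArithmeticFunction.cardFactors n

open Classical in
/-- The set `E` has logarithmic density zero. -/
def LogDensityZero (E : Set ℕ) : Prop :=
  Tendsto (fun X : ℕ => (∑ n ∈ Icc 1 X, if n ∈ E then (1 : ℝ) / n else 0) / Real.log X) atTop (𝓝 0)

/-- A pair `p = (a, b)` stands for the linear form `a n + b`. The forms `p` and `q` are not proportional. -/
def NonProportional (p q : ℕ × ℕ) : Prop := p.1 * q.2 ≠ q.1 * p.2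

open Classical in
/-- The sign patterns `(lam (a n + b))`, `(a, b) = f 0, ..., f (K - 1)`, which the Liouville function takes on the
forms `f` for at least `c N` of the integers `n ≤ N`. -/
noncomputable def patterns {K : ℕ} (f : Fin K → ℕ × ℕ) (c : ℝ) (N : ℕ) : Finset (Fin K → ℤ) :=
  ((Icc 1 N).image fun n i => lam ((f i).1 * n + (f i).2)).filter fun σ =>
    c * N ≤ (((Icc 1 N).filter fun n => ∀ i, lam ((f i).1 * n + (f i).2) = σ i).card : ℝ)

/-- There is one set `E` of logarithmic density zero such that for any `K` pairwise non-proportional forms `a n + b`,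
`a ≥ 1` (for example for any `K` different shifts `n + h`) and all large `N` outside `E`, the Liouville function takes
at least `2 K` different sign patterns on these forms, each of them for at least `N / (8 K 2 ^ K)` of the `n ≤ N`. -/
theorem result : ∃ E : Set ℕ, LogDensityZero E ∧
    ∀ (K : ℕ) (f : Fin K → ℕ × ℕ), (∀ i, 1 ≤ (f i).1) → (∀ i j, i ≠ j → NonProportional (f i) (f j)) →
      ∃ N₀ : ℕ, ∀ N : ℕ, N₀ ≤ N → N ∉ E → 2 * K ≤ (patterns f (1 / (8 * K * 2 ^ K)) N).card := by
  obtain ⟨E, hE, hC⟩ := Pool.Agent.Run7.h103.SP.corr
  exact ⟨E, hE, fun K f hf hnp => Pool.Agent.Run7.h103.SP.many hC K f hf hnp⟩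

end Pool.Agent.Results.MP_4fffd4_nt.TwicePatternsOfForms
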